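import Mathlib
import Pool.Agent.Helper56.CN.Final

set_option autoImplicit false

namespace Pool.Agent.Results.MP_3b8c4a_al.Conic

open Pool.Agent.Helper56.CN

/-- The determinantal conjecture of Marcus and de Oliveira up to a positive factor, for all normal
matrices `A = U1 diag(d1) U1*` and `B = U2 diag(d2) U2*` for which `0` is not in the convex hull of
the `n!` points `z_σ = ∏ (d1 i + d2 (σ i))`: a positive multiple of `det (A + B)` lies in the convex
hull of the points `z_σ`.  In other words, `det (A + B)` lies in the convex cone generated by the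
points `z_σ`, and every half-plane bounded by a line through `0` that contains all the points
`z_σ` in its interior contains `det (A + B)` in its interior. -/
theorem result (n : Type*) [Fintype n] [DecidableEq n] (d1 d2 : n → ℂ)
    (U1 U2 : unitary (Matrix n n ℂ))
    (h : (0 : ℂ) ∉ convexHull ℝ { ∏ i, (d1 i + d2 (σ i)) | σ : Equiv.Perm n }) :
    ∃ t : ℝ, 0 < t ∧
      (t : ℂ) * (U1 * Matrix.diagonal d1 * star U1 + U2 * Matrix.diagonal d2 * star U2).det
        ∈ convexHull ℝ { ∏ i, (d1 i + d2 (σ i)) | σ : Equiv.Perm n } :=
  (exists_scale h U1 U2).2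

end Pool.Agent.Results.MP_3b8c4a_al.Conic
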