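import Mathlib
import Pool.Agent.Helper54.OMCMain
import Pool.Agent.Helper2.OS.Aff

set_option autoImplicit false

namespace Pool.Agent.Results.MP_3b8c4a_al.OneCircle

open Pool.Agent.Helper54.OMC Matrix Complex
open scoped ComplexConjugate

/-- Let `A = U1 diag(a) U1*` and `B = U2 diag(b) U2*` be normal matrices.

(1) The determinantal conjecture of Marcus and de Oliveira holds for `A` and `B` if the eigenvalues of at
least one of the two matrices lie on a common line (for example, one of them is Hermitian) or on a
common circle (for example, one of them is unitary), in particular if one of them has at most three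
different eigenvalues.  There is no condition on the other matrix.

(2) All eigenvalues but one: fix `B`, the eigenvectors `U1` of `A` and all eigenvalues of `A` except
`a i0`, and let `N` be the set of all complex numbers `t` such that the inclusion fails when `a i0` is
replaced by `t`.  Then `N` is connected (possibly empty), without any condition.  If the other
eigenvalues `a i`, `i ≠ i0`, lie on the line or circle `C = {z : α|z|^2 + 2 Re(conj β z) + γ = 0}`, then
`N` lies strictly on one side of `C`, so the inclusion holds for all `t` on `C` and on the other side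
of `C`.  For `n ≤ 4` there always is such a line or circle. -/
theorem result (n : Type*) [Fintype n] [DecidableEq n] (a b : n → ℂ)
    (U1 U2 : unitary (Matrix n n ℂ)) :
    ((∃ d : n → ℂ, (d = a ∨ d = b) ∧
        (Collinear ℝ (Set.range d) ∨ EuclideanGeometry.Cospherical (Set.range d)
          ∨ (Set.range d).ncard ≤ 3)) →
      (U1 * diagonal a * star U1 + U2 * diagonal b * star U2).det
        ∈ convexHull ℝ { ∏ i, (a i + b (σ i)) | σ : Equiv.Perm n }) ∧
    ∀ (i0 : n) (N : Set ℂ), N = {t : ℂ | (U1 * diagonal (Function.update a i0 t) * star U1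
          + U2 * diagonal b * star U2).det
          ∉ convexHull ℝ { ∏ i, (Function.update a i0 t i + b (σ i)) | σ : Equiv.Perm n }} →
      IsPreconnected N ∧
      (∀ (α γ : ℝ) (β : ℂ), (α ≠ 0 ∨ β ≠ 0) →
        (∀ i, i ≠ i0 → α * normSq (a i) + 2 * (conj β * a i).re + γ = 0) →
        (∀ t ∈ N, α * normSq t + 2 * (conj β * t).re + γ < 0) ∨
        (∀ t ∈ N, 0 < α * normSq t + 2 * (conj β * t).re + γ)) ∧
      (Fintype.card n ≤ 4 → ∃ (α γ : ℝ) (β : ℂ), (α ≠ 0 ∨ β ≠ 0) ∧
        ∀ i, i ≠ i0 → α * normSq (a i) + 2 * (conj β * a i).re + γ = 0) := by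
  refine ⟨?_, ?_⟩
  · rintro ⟨d, hd, h⟩
    have hD : DiscProp d := by
      rcases h with h | h | h
      · exact discProp_of_collinear d h
      · exact discProp_of_cospherical d h
      · exact discProp_of_ncard d h
    rcases hd with rfl | rfl
    · exact hD.hull b U1 U2
    · exact hD.hull' a U1 U2
  · rintro i0 N rfl
    exact ⟨Pool.Agent.Helper2.OS.isPreconnected_badSet i0 a b U1 U2,
      fun α γ β hC ha => Pool.Agent.Helper2.OS.bad_oneSide i0 a b U1 U2 α γ β hC ha,
      fun hn => Pool.Agent.Helper2.OS.exists_qf i0 a hn⟩

end Pool.Agent.Results.MP_3b8c4a_al.OneCircle
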