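import Pool.Agent.Helper2.GM.Fin

/-!
# Mixtures of relabelled pairs of normal 4×4 matrices
-/

set_option autoImplicit false

namespace Pool.Agent.Results.MP_3b8c4a_al.Relabelings

open Matrix

/-- Let `U`, `V` be unitary 4×4 matrices and, for a permutation `h`, let
`D_h(a,b) = det(U diag(a ∘ h) U* + V diag(b) V*)`.

(1) For all weights `t_h ∈ [0, 1/2]` of sum `1` there are weights `w_σ ≥ 0` of sum `1`, depending only
on `U`, `V` and `t`, such that `∑ t_h D_h(a,b) = ∑ w_σ ∏ i, (a_i + b_(σ i))` for all `a`, `b`.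

(2) For all `a`, `b`, a closed half-plane `{z | Re(ω z) ≤ M}` which contains the 24 points
`∏ i, (a_i + b_(σ i))` contains all the numbers `D_h(a,b)` except at most one. -/
theorem result (U V : Matrix (Fin 4) (Fin 4) ℂ) (hU : U ∈ unitaryGroup (Fin 4) ℂ)
    (hV : V ∈ unitaryGroup (Fin 4) ℂ) :
    (∀ t : Equiv.Perm (Fin 4) → ℝ, (∀ h, 0 ≤ t h ∧ t h ≤ 1 / 2) → ∑ h, t h = 1 →
      ∃ w : Equiv.Perm (Fin 4) → ℝ, (∀ σ, 0 ≤ w σ) ∧ ∑ σ, w σ = 1 ∧
        ∀ a b : Fin 4 → ℂ,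
          ∑ h, (t h : ℂ) * (U * diagonal (a ∘ h) * star U + V * diagonal b * star V).det
            = ∑ σ, (w σ : ℂ) * ∏ i, (a i + b (σ i))) ∧
    ∀ (a b : Fin 4 → ℂ) (ω : ℂ) (M : ℝ),
      (∀ σ : Equiv.Perm (Fin 4), (ω * ∏ i, (a i + b (σ i))).re ≤ M) →
      ∀ g h : Equiv.Perm (Fin 4),
        M < (ω * (U * diagonal (a ∘ g) * star U + V * diagonal b * star V).det).re →
        M < (ω * (U * diagonal (a ∘ h) * star U + V * diagonal b * star V).det).re → g = h :=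
  ⟨fun t h0 h1 => Pool.Agent.Helper2.GM.mixture U V hU hV t h0 h1,
    fun a b ω M hM g h hg hh => Pool.Agent.Helper2.GM.half U V hU hV a b ω M hM g h hg hh⟩

end Pool.Agent.Results.MP_3b8c4a_al.Relabelings
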